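import Pool.Agent.H29.BH.Targets1

/-!
# The number of the lattice points in a box
-/

set_option autoImplicit false

open NumberField NumberField.InfinitePlace NumberField.Units
  NumberField.Units.dirichletUnitTheorem MeasureTheory Set Filter Complex
open scoped nonZeroDivisors ENNReal

namespace Pool.Agent.H35.BH

open Pool.Agent.H29.BH
open Pool.Agent.H25.HK Pool.Agent.H23.LB Pool.Agent.H23.LC Pool.Agent.H29.DW
open Pool.Agent.H28.RC (Rep ft idl)

/-- the box number -/
private noncomputable def bx (m : ℕ) (x : ℝ) : ℕ := min ⌊x⌋₊ (m - 1)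

private lemma bx_lt {m : ℕ} (hm : 0 < m) (x : ℝ) : bx m x < m := by
  unfold bx
  have := min_le_right ⌊x⌋₊ (m - 1)
  omega

private lemma bx_bd {m : ℕ} (hm : 0 < m) {x : ℝ} (hx : 0 ≤ x) (hx' : x ≤ m) :
    (bx m x : ℝ) ≤ x ∧ x ≤ (bx m x : ℝ) + 1 := by
  unfold bx
  constructor
  · exact (Nat.cast_le.mpr (min_le_left _ _)).trans (Nat.floor_le hx)
  · rcases le_total ⌊x⌋₊ (m - 1) with h | h
    · rw [min_eq_left h]
      exact (Nat.lt_floor_add_one x).le
    · rw [min_eq_right h, Nat.cast_sub hm]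
      push_cast
      linarith

private lemma bx_eq {m : ℕ} (hm : 0 < m) {R a b : ℝ} (hR : 0 < R) (ha : |a| ≤ R) (hb : |b| ≤ R)
    (h : bx m ((a + R) * (m / (2 * R))) = bx m ((b + R) * (m / (2 * R)))) :
    |a - b| ≤ 2 * R / m := by
  have hm' : (0 : ℝ) < m := Nat.cast_pos.mpr hm
  have key : ∀ c : ℝ, |c| ≤ R → 0 ≤ (c + R) * (m / (2 * R)) ∧ (c + R) * (m / (2 * R)) ≤ m := by
    intro c hc
    have h1 := abs_le.mp hc
    refine ⟨mul_nonneg (by linarith) (by positivity), ?_⟩
    have : (c + R) * (m / (2 * R)) ≤ (2 * R) * (m / (2 * R)) :=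
      mul_le_mul_of_nonneg_right (by linarith) (by positivity)
    rwa [mul_div_cancel₀ (m : ℝ) (by positivity : (2 * R) ≠ 0)] at this
  obtain ⟨a1, a2⟩ := bx_bd hm (key a ha).1 (key a ha).2
  obtain ⟨b1, b2⟩ := bx_bd hm (key b hb).1 (key b hb).2
  rw [h] at a1 a2
  have h3 : |(a - b) * (m / (2 * R))| ≤ 1 := by
    have : (a - b) * (m / (2 * R)) = (a + R) * (m / (2 * R)) - (b + R) * (m / (2 * R)) := by ring
    rw [this, abs_le]
    constructor <;> linarith
  rw [abs_mul, abs_of_pos (show 0 < (m : ℝ) / (2 * R) by positivity)] at h3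
  rw [← le_div_iff₀ (by positivity), one_div_div] at h3
  exact h3

variable {K : Type} [Field K] [NumberField K]

/-- the coordinates -/
private noncomputable def co (y : InfinitePlace K → ℝ) (h : K) (v : InfinitePlace K) (i : ℕ) : ℝ :=
  if i = 0 then (sy y h v).re else (sy y h v).im

omit [NumberField K] in
private lemma co_bd (y : InfinitePlace K → ℝ) (h : K) (v : InfinitePlace K) (i : ℕ) {R : ℝ}
    (hR : ‖sy y h v‖ ≤ R) : |co y h v i| ≤ R := by
  unfold co
  split_ifs
  · exact (Complex.abs_re_le_norm _).trans hR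
  · exact (Complex.abs_im_le_norm _).trans hR

omit [NumberField K] in
private lemma sy_sub (y : InfinitePlace K → ℝ) (h h' : K) (v : InfinitePlace K) :
    sy y (h - h') v = sy y h v - sy y h' v := by
  unfold sy
  rw [map_sub, sub_mul]

omit [NumberField K] in
private lemma sy_im (y : InfinitePlace K → ℝ) (h : K) (v : InfinitePlace K) (hv : v.IsReal) :
    (sy y h v).im = 0 := by
  unfold sy
  have h1 : (v.embedding h).im = 0 := by
    have h2 := InfinitePlace.conjugate_embedding_eq_of_isReal hv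
    have h3 : (starRingEnd ℂ) (v.embedding h) = v.embedding h := by
      have := congrArg (fun g : K →+* ℂ => g h) h2
      simpa using this
    exact Complex.conj_eq_iff_im.mp h3
  rw [Complex.mul_im, h1, Complex.ofReal_im]
  ring

omit [NumberField K] in
private lemma norm_bd (y : InfinitePlace K → ℝ) (h h' : K) (v : InfinitePlace K) {D : ℝ}
    (hD : 0 ≤ D) (hc : ∀ i : ℕ, i < v.mult → |co y h v i - co y h' v i| ≤ D) :
    ‖sy y (h - h') v‖ ≤ 3 / 2 * D := by
  rw [sy_sub]
  have h0 : |(sy y h v - sy y h' v).re| ≤ D := by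
    have := hc 0 mult_pos
    simpa [co] using this
  have h1 : |(sy y h v - sy y h' v).im| ≤ D := by
    by_cases hv : v.IsReal
    · rw [Complex.sub_im, sy_im y h v hv, sy_im y h' v hv]
      simpa using hD
    · have h2 : v.mult = 2 := by simp [mult, hv]
      have := hc 1 (by omega)
      simpa [co] using this
  have h3 : ‖sy y h v - sy y h' v‖ ^ 2 ≤ (3 / 2 * D) ^ 2 := by
    rw [Complex.sq_norm, Complex.normSq_apply]
    have e0 : (sy y h v - sy y h' v).re ^ 2 ≤ D ^ 2 := by
      rw [← sq_abs]; exact pow_le_pow_left₀ (abs_nonneg _) h0 2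
    have e1 : (sy y h v - sy y h' v).im ^ 2 ≤ D ^ 2 := by
      rw [← sq_abs]; exact pow_le_pow_left₀ (abs_nonneg _) h1 2
    nlinarith [sq_nonneg D]
  exact le_of_pow_le_pow_left₀ two_ne_zero (by positivity) h3

/-- (NB) the number of the lattice points in a box. -/
theorem pf_K_NB (hNV : K_NV) : K_NB := by
  classical
  intro n hn
  refine ⟨4 ^ n, one_le_pow₀ (by norm_num), ?_⟩
  intro K _ _ hKn L y R hL hR
  obtain ⟨hb, -, hone, -⟩ := hNV K L y hL
  set S : Set K := {h : K | h ∈ L ∧ h ≠ 0 ∧ ∀ v, ‖sy y h v‖ ≤ R v} with hS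
  set P : ℝ := ∏ v, R v ^ v.mult with hP
  have hP0 : 0 ≤ P := Finset.prod_nonneg fun v _ => pow_nonneg (hR v) _
  rcases S.eq_empty_or_nonempty with hemp | ⟨h₀, hh₀⟩
  · rw [hemp]
    refine ⟨Set.finite_empty, ?_⟩
    rw [Set.ncard_empty]
    push_cast
    positivity
  have hV : 1 ≤ P * bt L y := by
    refine (hone h₀ hh₀.1 hh₀.2.1).trans (mul_le_mul_of_nonneg_right ?_ hb.le)
    exact Finset.prod_le_prod (fun v _ => pow_nonneg (norm_nonneg _) _)
      fun v _ => pow_le_pow_left₀ (norm_nonneg _) (hh₀.2.2 v) _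
  have hPpos : 0 < P := by
    rcases hP0.eq_or_lt with h | h
    · rw [← h, zero_mul] at hV
      linarith
    · exact h
  have hRpos : ∀ v, 0 < R v := by
    intro v
    rcases (hR v).eq_or_lt with h | h
    · exfalso
      have : P = 0 := by
        rw [hP]
        refine Finset.prod_eq_zero (Finset.mem_univ v) ?_
        rw [← h]
        exact zero_pow mult_ne_zero
      linarith
    · exact h
  set V : ℝ := P * bt L y with hVdef
  have hV0 : 0 ≤ V := by linarith
  set r : ℝ := V ^ ((n : ℝ)⁻¹) with hr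
  have hr1 : 1 ≤ r := Real.one_le_rpow hV (by positivity)
  have hrn : r ^ n = V := Real.rpow_inv_natCast_pow hV0 hn.ne'
  set m : ℕ := ⌊3 * r⌋₊ + 1 with hm
  have hm0 : 0 < m := Nat.succ_pos _
  have hmR : (0 : ℝ) < m := Nat.cast_pos.mpr hm0
  have hm1 : 3 * r < m := by
    rw [hm]; push_cast; exact Nat.lt_floor_add_one _
  have hm2 : (m : ℝ) ≤ 4 * r := by
    rw [hm]; push_cast
    have := Nat.floor_le (show 0 ≤ 3 * r by linarith)
    linarith
  -- the boxes
  let q : K → ((v : InfinitePlace K) → Fin v.mult → Fin m) := fun h v i =>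
    ⟨bx m ((co y h v i + R v) * (m / (2 * R v))), bx_lt hm0 _⟩
  have hinj : Set.InjOn q S := by
    intro h hh h' hh' hq
    by_contra hne
    have h1 := hone (h - h') (Submodule.sub_mem (L : Submodule (𝓞 K) K) hh.1 hh'.1) (sub_ne_zero.mpr hne)
    have h2 : nv y (h - h') ≤ ∏ v : InfinitePlace K, (3 / (m : ℝ) * R v) ^ v.mult := by
      unfold nv
      refine Finset.prod_le_prod (fun v _ => pow_nonneg (norm_nonneg _) _)
        fun v _ => pow_le_pow_left₀ (norm_nonneg _) ?_ _
      have h3 := norm_bd y h h' v (D := 2 * R v / m)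
        (div_nonneg (by linarith [hRpos v]) hmR.le) ?_
      · calc ‖sy y (h - h') v‖ ≤ 3 / 2 * (2 * R v / m) := h3
          _ = 3 / (m : ℝ) * R v := by ring
      · intro i hi
        have h4 : q h v ⟨i, hi⟩ = q h' v ⟨i, hi⟩ := by rw [hq]
        have h5 := congrArg Fin.val h4
        exact bx_eq hm0 (hRpos v) (co_bd y h v i (hh.2.2 v)) (co_bd y h' v i (hh'.2.2 v)) h5
    have h3 : ∏ v : InfinitePlace K, (3 / (m : ℝ) * R v) ^ v.mult = (3 / (m : ℝ)) ^ n * P := by
      simp_rw [mul_pow]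
      rw [Finset.prod_mul_distrib, Finset.prod_pow_eq_pow_sum, sum_mult_eq, hKn]
    rw [h3] at h2
    have h4 : 1 ≤ (3 / (m : ℝ)) ^ n * V := by
      calc (1 : ℝ) ≤ nv y (h - h') * bt L y := h1
        _ ≤ ((3 / (m : ℝ)) ^ n * P) * bt L y := mul_le_mul_of_nonneg_right h2 hb.le
        _ = (3 / (m : ℝ)) ^ n * V := by rw [hVdef]; ring
    rw [← hrn, ← mul_pow] at h4
    have h5 : 3 / (m : ℝ) * r < 1 := by
      rw [div_mul_eq_mul_div, div_lt_one hmR]
      exact hm1
    have h6 : (3 / (m : ℝ) * r) ^ n < 1 := pow_lt_one₀ (by positivity) h5 hn.ne'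
    linarith
  have hfin : S.Finite := Set.Finite.of_injOn (Set.mapsTo_univ q S) hinj Set.finite_univ
  refine ⟨hfin, ?_⟩
  have hcard : S.ncard ≤ m ^ n := by
    have h1 := Set.ncard_le_ncard_of_injOn q (fun a _ => Set.mem_univ (q a)) hinj Set.finite_univ
    rw [Set.ncard_univ, Nat.card_eq_fintype_card, Fintype.card_pi] at h1
    simp only [Fintype.card_pi, Finset.prod_const, Finset.card_univ, Fintype.card_fin] at h1
    rw [Finset.prod_pow_eq_pow_sum, sum_mult_eq, hKn] at h1
    exact h1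
  calc (S.ncard : ℝ) ≤ (m : ℝ) ^ n := by exact_mod_cast hcard
    _ ≤ (4 * r) ^ n := pow_le_pow_left₀ hmR.le hm2 n
    _ = 4 ^ n * V := by rw [mul_pow, hrn]
    _ = 4 ^ n * P * bt L y := by rw [hVdef]; ring

end Pool.Agent.H35.BH
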